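import Pool.Agent.Helper932CL.DivD

/-!
# Extreme values of `Δ₂` along geometric sequences

`Δ` is the function `Δ_2` of the Piltz divisor problem (the error term of Dirichlet's divisor problem).  Let
`x_n = b_n α ^ (a_n)` where `a_n` (eventually positive) and `b_n > 0` are nondecreasing and
`(a_{n+1} - a_n) + log (b_{n+1} / b_n) ≥ δ > 0` for all `n`.  For example `x_n = α ^ n`, or `x_n = α q_n` with any positive
`q_n` such that `q_{n+1} ≥ (1 + δ) q_n`.  Then for almost all `α > 1`: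

* `|Δ(x_n)| ≤ (log n) ^ (1/4 + ε) x_n ^ (1/4)` for all large `n`, for every `ε > 0`;
* for every `ε > 0` and `η > 0` and all large `N` there are `n` and `m` in `(N, N + N ^ η]` with
  `Δ(x_n) ≥ (log N) ^ (1/4 - ε) x_n ^ (1/4)` and `Δ(x_m) ≤ - (log N) ^ (1/4 - ε) x_m ^ (1/4)`.

So along such sequences the conjectured exponent `1/4 = (k - 1) / (2 k)`, `k = 2`, is right, and the extreme values of both
signs of `Δ(x_n) / x_n ^ (1/4)` have the exact logarithmic order `(log n) ^ (1/4)`.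

The proof is the one of the corresponding theorem for the circle problem (`MP_fb29e9_nt`): high moments with respect to
`log α` of the model polynomials `∑ d(m) / (π √2) m ^ (-3/4) cos (4 π √(m x) - π / 4)`, split by the square part of `m`, for
the upper bound, and Riesz products in windows with a long series of almost independent trials for the lower bound.
-/

set_option autoImplicit false

open MeasureTheory Filter Topology

namespace Pool.Agent.Results.MP_bc6037_nt.ExtremesAlongPowers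

theorem result (Δ : ℝ → ℝ)
    (hΔ : ∀ x : ℝ, Δ x = ∑ n ∈ Finset.Icc 1 ⌊x⌋₊, (n.divisors.card : ℝ) -
      x * (Real.log x + 2 * Real.eulerMascheroniConstant - 1))
    (a b : ℕ → ℝ) (δ : ℝ) (hδ : 0 < δ) (ha : Monotone a) (ha0 : ∃ n, 0 < a n) (hb : Monotone b)
    (hb0 : ∀ n, 0 < b n) (hgap : ∀ n, δ ≤ (a (n + 1) - a n) + (Real.log (b (n + 1)) - Real.log (b n))) :
    ∀ᵐ α : ℝ, 1 < α →
      -- upper bound
      (∀ ε : ℝ, 0 < ε → ∀ᶠ n : ℕ in atTop,
        |Δ (b n * α ^ (a n))| ≤ (Real.log n) ^ (1 / 4 + ε) * (b n * α ^ (a n)) ^ (1 / 4 : ℝ)) ∧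
      -- large positive and large negative values in short blocks of indices
      (∀ ε η : ℝ, 0 < ε → 0 < η → ∀ᶠ N : ℕ in atTop,
        (∃ n : ℕ, N < n ∧ (n : ℝ) ≤ N + (N : ℝ) ^ η ∧
          (Real.log N) ^ (1 / 4 - ε) * (b n * α ^ (a n)) ^ (1 / 4 : ℝ) ≤ Δ (b n * α ^ (a n))) ∧
        (∃ n : ℕ, N < n ∧ (n : ℝ) ≤ N + (N : ℝ) ^ η ∧
          Δ (b n * α ^ (a n)) ≤ -(Real.log N) ^ (1 / 4 - ε) * (b n * α ^ (a n)) ^ (1 / 4 : ℝ))) := by
  have h : Δ = Pool.Agent.Helper932CL.Δd := funext hΔ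
  subst h
  exact Pool.Agent.Helper932CL.divMain a b δ hδ ha ha0 hb hb0 hgap

end Pool.Agent.Results.MP_bc6037_nt.ExtremesAlongPowers
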