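import Pool.Agent.H648_nf.DvBig

set_option autoImplicit false

open MeasureTheory Filter Topology

namespace Pool.Agent.Results.MP_bc6037_nt.MeasureInWindows

open Pool.Agent.H387R2.Vor (Ed Del)

/-- **How long the error term of the divisor problem is large, in every window.** Let
`Δ(x) = ∑_{n ≤ x} d(n) - x(log x + 2γ - 1)` be the function `Δ_2` of the Piltz divisor problem and
`V(H) = exp(c (log log H)^{1/4} (log log log H)^{-3/4})`. There are `c > 0` and `H₀` such that for **all** windows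
`[R, R + H]` with `H₀ ≤ H ≤ R` the set of the `t` of the window with `Δ(t²) ≥ V(H) √t` has measure at least
`H² e^{-√(log H)} / (H + (log R)³)`, and so has the set of the `t` with `Δ(t²) ≤ -V(H) √t`. So in every interval
`[x, x + C√x]` the function `Δ` has values `≥ c' x^{1/4}` and values `≤ -c' x^{1/4}`, each on a set of measure
`≫ √x / (log x)³`, and for windows of `√x`-length `H ≥ (log R)³` the proportion of the large values of each sign is at
least `e^{-√(log H)} / 2`.

Proof. A Riesz product over primes as weight gives the large mean value with this weight; the mean square of `Δ(t²)/√t`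
over the window is at most `C (H + (log R)³)`. -/
theorem result (Δ : ℝ → ℝ)
    (hΔ : ∀ x : ℝ, Δ x = ∑ n ∈ Finset.Icc 1 ⌊x⌋₊, (n.divisors.card : ℝ) - x * (Real.log x + 2 * Real.eulerMascheroniConstant - 1)) :
    ∃ c H₀ : ℝ, 0 < c ∧ ∀ R H : ℝ, H₀ ≤ H → H ≤ R →
      H ^ 2 * Real.exp (-√(Real.log H)) / (H + (Real.log R) ^ 3) ≤
        volume.real {t : ℝ | R < t ∧ t ≤ R + H ∧
          √t * Real.exp (c * (Real.log (Real.log H)) ^ (1 / 4 : ℝ) *
            (Real.log (Real.log (Real.log H))) ^ (-(3 / 4) : ℝ)) ≤ Δ (t ^ 2)} ∧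
      H ^ 2 * Real.exp (-√(Real.log H)) / (H + (Real.log R) ^ 3) ≤
        volume.real {t : ℝ | R < t ∧ t ≤ R + H ∧
          Δ (t ^ 2) ≤ -(√t * Real.exp (c * (Real.log (Real.log H)) ^ (1 / 4 : ℝ) *
            (Real.log (Real.log (Real.log H))) ^ (-(3 / 4) : ℝ)))} := by
  obtain ⟨H₀, hH₀, h⟩ := Pool.Agent.H648_nf.div_large
  refine ⟨Pool.Agent.W24.Both.c1, H₀, Pool.Agent.W24.Both.c1_pos, fun R H hH hHR => ?_⟩
  obtain ⟨V, hV⟩ : ∃ V : ℝ, V = Real.exp (Pool.Agent.W24.Both.c1 * (Real.log (Real.log H)) ^ (1 / 4 : ℝ) *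
      (Real.log (Real.log (Real.log H))) ^ (-(3 / 4) : ℝ)) := ⟨_, rfl⟩
  have hE : ∀ t : ℝ, Δ (t ^ 2) / √t = Ed t := by
    intro t
    have h1 : Δ (t ^ 2) = Del (t ^ 2) := by
      rw [hΔ]
      unfold Del
      rw [show t ^ 2 * (Real.log (t ^ 2) + 2 * Real.eulerMascheroniConstant - 1) =
        t ^ 2 * Real.log (t ^ 2) + (2 * Real.eulerMascheroniConstant - 1) * t ^ 2 by ring, ← sub_sub]
      rfl
    rw [h1]
    rfl
  have hR : 0 < R := by linarith
  have key : ∀ t : ℝ, R < t → Δ (t ^ 2) = √t * Ed t := by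
    intro t ht
    have hs : 0 < √t := Real.sqrt_pos.2 (by linarith)
    rw [← hE]
    field_simp
  constructor
  · have h1 := h R H hH hHR 1 (Or.inl rfl)
    rw [← hV] at h1 ⊢
    convert h1 using 2
    ext t
    simp only [Set.mem_ofPred_eq]
    constructor
    · rintro ⟨a1, a2, a3⟩
      refine ⟨a1, a2, ?_⟩
      rw [key t a1] at a3
      have hs : 0 < √t := Real.sqrt_pos.2 (by linarith)
      rw [one_mul]
      exact le_of_mul_le_mul_left a3 hs
    · rintro ⟨a1, a2, a3⟩
      refine ⟨a1, a2, ?_⟩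
      rw [key t a1]
      rw [one_mul] at a3
      exact mul_le_mul_of_nonneg_left a3 (Real.sqrt_nonneg _)
  · have h1 := h R H hH hHR (-1) (Or.inr rfl)
    rw [← hV] at h1 ⊢
    convert h1 using 2
    ext t
    simp only [Set.mem_ofPred_eq]
    constructor
    · rintro ⟨a1, a2, a3⟩
      refine ⟨a1, a2, ?_⟩
      rw [key t a1] at a3
      have hs : 0 < √t := Real.sqrt_pos.2 (by linarith)
      have a4 : √t * V ≤ √t * (-1 * Ed t) := by linarith
      exact le_of_mul_le_mul_left a4 hs
    · rintro ⟨a1, a2, a3⟩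
      refine ⟨a1, a2, ?_⟩
      rw [key t a1]
      have a4 := mul_le_mul_of_nonneg_left a3 (Real.sqrt_nonneg t)
      linarith

end Pool.Agent.Results.MP_bc6037_nt.MeasureInWindows
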