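import Pool.Agent.H648_nf.DvLaw

set_option autoImplicit false

open MeasureTheory Filter Topology

namespace Pool.Agent.Results.MP_bc6037_nt.ShortWindows

open Pool.Agent.H387R2.Vor (Ed Del)

/-- **The divisor problem in all short windows.** Let `Δ(x) = ∑_{n ≤ x} d(n) - x(log x + 2γ - 1)` be the function `Δ_2` of
the Piltz divisor problem. There is a law `ν` (the one of Heath-Brown) with an entire density, full support, mean `0` and
variance `∑ d(m)² / (4π² m^{3/2})` such that for every continuous `f` of at most quadratic growth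

`1/H ∫_R^{R+H} f(Δ(t²)/√t) dt → ∫ f dν`,

uniformly over **all** windows with `H ≤ R`, as soon as `H / (log R)³ → ∞` and `R → ∞`. In terms of `x = t²` the windows
have a length `≫ √x (log x)³`.

Proof. `Δ` is compared with the trigonometric polynomials of its Voronoi series. In a window of length `H` the mean square
of the part with the frequencies `√m`, `M² < m ≤ R^{1+ε}`, is bounded by the diagonal plus the pairs with
`|√m - √n| ≤ 1/H`, and these contribute at most `C (log R)³/H`: for `B ≤ √X` the sum of `d(m) d(n)` over `m, n ≤ X`,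
`0 < |m - n| ≤ B` is `≪ B X (log X)²`, as one sees by counting for all `a, c ≤ √X` the solutions of `0 < |ab - cd| ≤ B`. -/
theorem result (Δ : ℝ → ℝ)
    (hΔ : ∀ x : ℝ, Δ x = ∑ n ∈ Finset.Icc 1 ⌊x⌋₊, (n.divisors.card : ℝ) - x * (Real.log x + 2 * Real.eulerMascheroniConstant - 1)) :
    ∃ (ν : ProbabilityMeasure ℝ) (G : ℂ → ℂ),
      Differentiable ℂ G ∧ (∀ x : ℝ, 0 ≤ (G x).re ∧ (G x).im = 0) ∧
      (ν : Measure ℝ) = volume.withDensity (fun x : ℝ => ENNReal.ofReal (G x).re) ∧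
      (∀ u v : ℝ, u < v → 0 < (ν : Measure ℝ) (Set.Ioo u v)) ∧
      Integrable (fun x : ℝ => x ^ 2) (ν : Measure ℝ) ∧
      ∫ x, x ∂(ν : Measure ℝ) = 0 ∧
      HasSum (fun m : ℕ => (m.divisors.card : ℝ) ^ 2 / (4 * Real.pi ^ 2) * (m : ℝ) ^ (-(3 / 2) : ℝ)) (∫ x, x ^ 2 ∂(ν : Measure ℝ)) ∧
      ∀ f : ℝ → ℝ, Continuous f → (∃ C : ℝ, ∀ x, |f x| ≤ C * (1 + x ^ 2)) → ∀ η : ℝ, 0 < η →
        ∃ L R₀ : ℝ, 4 ≤ R₀ ∧ ∀ R H : ℝ, R₀ ≤ R → L * (Real.log R) ^ 3 ≤ H → H ≤ R →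
          |(∫ t in R..(R + H), f (Δ (t ^ 2) / √t)) / H - ∫ x, f x ∂(ν : Measure ℝ)| ≤ η := by
  have hE : ∀ t : ℝ, Δ (t ^ 2) / √t = Ed t := by
    intro t
    have h1 : Δ (t ^ 2) = Del (t ^ 2) := by
      rw [hΔ]
      unfold Del
      rw [show t ^ 2 * (Real.log (t ^ 2) + 2 * Real.eulerMascheroniConstant - 1) =
        t ^ 2 * Real.log (t ^ 2) + (2 * Real.eulerMascheroniConstant - 1) * t ^ 2 by ring, ← sub_sub]
      rfl
    rw [h1]
    rfl
  simp only [hE]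
  obtain ⟨ν, G, h1, h2, h3, h4, h5, h6, h7, h8⟩ := Pool.Agent.H648_nf.div_win
  refine ⟨ν, G, h1, h2, h3, h4, h5, h6, h7, fun f hf hC η hη => ?_⟩
  obtain ⟨L, R₀, _, hR₀, h9⟩ := h8 f hf hC η hη
  exact ⟨L, R₀, hR₀, h9⟩

end Pool.Agent.Results.MP_bc6037_nt.ShortWindows
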